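import Mathlib
import Pool.Agent.V11170.CatalanDefs

set_option autoImplicit false

namespace Pool.Agent.Results.MP_1fed52_co.MajTwoColumns

open Finset Pool.Agent.V11170.CatalanMaj Pool.Agent.V11170.CatalanDefs

/-- The order of `NE_{s,t}` on the labels `0, …, st - 1`; the label `x = it + j` stands for the
element `x + 1 = ((i + 1) - 1) t + (j + 1)`. -/
def Prec (t x y : ℕ) : Prop := y / t ≤ x / t ∧ y % t ≤ x % t

/-- The set `NE_{s,2}(123)`. -/
noncomputable def NE (s : ℕ) : Finset (Equiv.Perm (Fin (s * 2))) := linExt123 (s * 2) (Prec 2)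

theorem field_identity (s : ℕ) (K : Type) [Field K] (q : K) (hq : q ≠ 0) :
    ∑ π ∈ NE s, q ^ maj π = q ^ (s ^ 2) * catalanSum q s := by
  unfold NE
  have hL : Labels s (fun k => 2 * (s - 1 - k) + 1) (fun k => 2 * (s - 1 - k)) := by
    refine ⟨fun k hk => ?_, fun k k' h h' => ?_, fun k k' h h' => ?_, fun k k' h h' => ?_,
      fun x hx => ?_⟩
    · omega
    · omega
    · omega
    · omega
    · by_cases h : x % 2 = 0
      · right
        exact ⟨s - 1 - x / 2, by omega, by omega⟩
      · left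
        exact ⟨s - 1 - x / 2, by omega, by omega⟩
  rw [sum_maj hL (Nat.mul_comm s 2) ?_ ?_ ?_ ?_ cH ?_ q hq, gf_H, catalanSum_eq]
  · have h1 := cf_palindrome q hq s
    have h2 : (2 * s).choose 2 = (s ^ 2 - s) + s ^ 2 ∧ (s ^ 2 - s) + s = s ^ 2 := by
      have h3 : s ≤ s ^ 2 := Nat.le_self_pow (by norm_num) s
      refine ⟨?_, by omega⟩
      rw [Nat.choose_two_right]
      have h4 : 2 * s * (2 * s - 1) = 2 * ((s ^ 2 - s) + s ^ 2) := by
        cases s with
        | zero => rfl
        | succ s =>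
          have h5 : (s + 1) ^ 2 - (s + 1) = (s + 1) * s := by
            have : (s + 1) ^ 2 = (s + 1) * s + (s + 1) := by ring
            omega
          rw [h5, show 2 * (s + 1) - 1 = 2 * s + 1 by omega]
          ring
      rw [h4, Nat.mul_div_cancel_left _ (by norm_num)]
    calc q ^ (s * 2).choose 2 * cf q⁻¹ s s = q ^ (s ^ 2 - s) * (q ^ s ^ 2 * cf q⁻¹ s s) := by
          rw [Nat.mul_comm s 2, h2.1, pow_add, mul_assoc]
      _ = q ^ ((s ^ 2 - s) + s) * cf q s s := by rw [h1, pow_add, mul_assoc]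
      _ = _ := by rw [h2.2]
  · intro k k' hk hk'
    unfold Prec
    omega
  · intro k k' hk hk'
    unfold Prec
    omega
  · intro k k' hk hk'
    unfold Prec
    omega
  · intro k k' hk hk'
    unfold Prec
    omega
  · intro w hw hv hn i hi
    have hs := ones_succ i w
    have hv1 := hv i (by rw [mem_range]; omega)
    have hv2 := hv (i + 1) (by rw [mem_range]; omega)
    unfold cH
    rcases L_spec (fun k => 2 * (s - 1 - k) + 1) (fun k => 2 * (s - 1 - k)) hw hn
      (show i < 2 * s by omega) with ⟨a1, a2, a3⟩ | ⟨a1, a2, a3⟩ <;>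
    rcases L_spec (fun k => 2 * (s - 1 - k) + 1) (fun k => 2 * (s - 1 - k)) hw hn
        (show i + 1 < 2 * s by omega) with ⟨b1, b2, b3⟩ | ⟨b1, b2, b3⟩
    all_goals
      rw [a3, b3]
      omega

/-- For every `s ≥ 1`, `NE_{s,2}(123)[q] = q^{s^2} c_s(q)` in `ℤ[q]`. -/
theorem result (s : ℕ) (_hs : 1 ≤ s) :
    ∑ π ∈ NE s, (Polynomial.X : Polynomial ℤ) ^ maj π =
      Polynomial.X ^ (s ^ 2) * catalanSum (Polynomial.X : Polynomial ℤ) s :=
  transfer (NE s) s (s ^ 2) (fun K _ q hq => field_identity s K q hq)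

end Pool.Agent.Results.MP_1fed52_co.MajTwoColumns
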